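import Pool.Agent.W584.GB.Defs

set_option autoImplicit false

/-!
# Path classes are generated by small paths (project GB, S_gen)
-/

namespace Pool.Agent.W369.GB

open Pool.Agent.W584.GB Set Topology unitInterval

/-- Path classes are generated by small paths. -/
theorem gen : S_gen := by
  intro X _ N P hT hS hM
  have h1 : ∀ (c a b : X) (p : Path a b), (∀ t, p t ∈ N.U c) →
      P a b (Path.Homotopic.Quotient.mk p) := by
    intro c a b p hp
    have _ := N.sc c
    have ha : a ∈ N.U c := by simpa using hp 0
    have hb : b ∈ N.U c := by simpa using hp 1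
    let c' : N.U c := ⟨c, N.mem c⟩
    let a' : N.U c := ⟨a, ha⟩
    let b' : N.U c := ⟨b, hb⟩
    let p' : Path a' b' := ⟨⟨fun t => ⟨p t, hp t⟩, by fun_prop⟩, by
      apply Subtype.ext; exact p.source, by apply Subtype.ext; exact p.target⟩
    let da : Path c' a' := (PathConnectedSpace.joined c' a').somePath
    let db : Path c' b' := (PathConnectedSpace.joined c' b').somePath
    have hh : p'.Homotopic (da.symm.trans db) := SimplyConnectedSpace.paths_homotopic _ _
    let inc : C(N.U c, X) := ⟨Subtype.val, continuous_subtype_val⟩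
    have h2 := hh.map inc
    have h3 : (p'.map inc.continuous : Path a b) = p := by
      ext t; rfl
    have h4 : Path.Homotopic.Quotient.mk p =
        Path.Homotopic.Quotient.mk ((da.symm.trans db).map inc.continuous) := by
      rw [Path.Homotopic.Quotient.eq, ← h3]
      exact h2
    rw [h4, Path.map_trans, ← Path.map_symm, Path.Homotopic.Quotient.mk_trans,
      Path.Homotopic.Quotient.mk_symm]
    apply hT
    · apply hS
      exact hM _ _ _ fun t => (da t).2
    · exact hM _ _ _ fun t => (db t).2
  intro x y q
  induction q using Path.Homotopic.Quotient.ind with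
  | mk p =>
  have h2 : ∀ x' y' (hx : x' = x) (hy : y' = y),
      P x' y' (Path.Homotopic.Quotient.mk (p.cast hx hy)) →
      P x y (Path.Homotopic.Quotient.mk p) := by
    intro x' y' hx hy
    subst hx hy
    intro h
    exact h
  obtain ⟨t, ht0, hm, ⟨n0, hn⟩, hc⟩ := exists_monotone_Icc_subset_open_cover_unitInterval
    (c := fun z : X => p ⁻¹' (N.U z)) (fun z => (N.isOpen z).preimage p.continuous)
    (fun s _ => by simp only [mem_iUnion]; exact ⟨p s, N.mem _⟩)
  have h3 : ∀ n, P (p (t 0)) (p (t n)) (Path.Homotopic.Quotient.mk (p.subpath (t 0) (t n))) := by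
    intro n
    induction n with
    | zero =>
      rw [Path.subpath_self]
      exact h1 (p (t 0)) _ _ _ fun s => N.mem _
    | succ n ih =>
      have h5 : Path.Homotopic.Quotient.mk (p.subpath (t 0) (t (n + 1))) =
          (Path.Homotopic.Quotient.mk (p.subpath (t 0) (t n))).trans
            (Path.Homotopic.Quotient.mk (p.subpath (t n) (t (n + 1)))) := by
        rw [← Path.Homotopic.Quotient.mk_trans, Path.Homotopic.Quotient.eq]
        exact ⟨(Path.Homotopy.subpathTransSubpath p (t 0) (t n) (t (n + 1))).symm⟩
      rw [h5]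
      apply hT _ _ _ _ _ ih
      obtain ⟨z, hz⟩ := hc n
      apply h1 z
      intro s
      have h6 : p.subpath (t n) (t (n + 1)) s ∈ range (p.subpath (t n) (t (n + 1))) := ⟨s, rfl⟩
      rw [Path.range_subpath_of_le _ _ _ (hm (Nat.le_succ n))] at h6
      obtain ⟨r, hr, hr2⟩ := h6
      rw [← hr2]
      exact hz hr
  have h4 := h3 n0
  rw [ht0, hn n0 le_rfl] at h4
  rw [Path.subpath_zero_one] at h4
  exact h2 _ _ _ _ h4

end Pool.Agent.W369.GB
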