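import Pool.Agent.W584.GB.Defs

set_option autoImplicit false

/-!
# Holonomy of a locally constant cocycle (project GB, S_hol)
-/

namespace Pool.Agent.W369.GB

open Pool.Agent.W584.GB Set Topology unitInterval

section

variable {X : Type} [TopologicalSpace X] (N : Nbhd X) {A : Type} [Group A] (g : X → X → A)
  (hg : ∀ x, ∀ y ∈ N.U x, ∀ z ∈ N.U y, g x y * g y z = g x z)

include hg in
theorem g_self (x : X) : g x x = 1 := by
  have := hg x x (N.mem x) x (N.mem x)
  simpa using this

variable [TopologicalSpace A] [DiscreteTopology A]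

/-- The covering space attached to the cocycle. -/
def core : FiberBundleCore X X A where
  baseSet := N.U
  isOpen_baseSet := N.isOpen
  indexAt := fun x => x
  mem_baseSet_at := N.mem
  coordChange i j x a := g j x * (g i x)⁻¹ * a
  coordChange_self := by intro i x _ v; simp
  continuousOn_coordChange := by
    intro i j p hp
    obtain ⟨x, a⟩ := p
    have hx : x ∈ N.U i ∧ x ∈ N.U j := by simpa using hp
    apply ContinuousAt.continuousWithinAt
    have h1 : ContinuousAt (fun q : X × A => g j x * (g i x)⁻¹ * q.2) (x, a) := by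
      have h2 : Continuous (fun q : X × A => g j x * (g i x)⁻¹ * q.2) :=
        (continuous_of_discreteTopology (f := fun b : A => g j x * (g i x)⁻¹ * b)).comp
          continuous_snd
      exact h2.continuousAt
    refine h1.congr ?_
    have h3 : (N.U x) ×ˢ (univ : Set A) ∈ 𝓝 (x, a) :=
      ((N.isOpen x).prod isOpen_univ).mem_nhds ⟨N.mem x, trivial⟩
    filter_upwards [h3] with q hq
    have hq1 : q.1 ∈ N.U x := hq.1
    have e1 := hg i x hx.1 q.1 hq1
    have e2 := hg j x hx.2 q.1 hq1
    rw [← e1, ← e2]
    group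
  coordChange_comp := by intro i j k x _ v; group

/-- The point with given coordinate. -/
def mkE (x : X) (a : A) : (core N g hg).TotalSpace := ⟨x, a⟩

/-- Right translation on the covering space. -/
def rt (c : A) (e : (core N g hg).TotalSpace) : (core N g hg).TotalSpace :=
  ⟨e.1, (show A from e.2) * c⟩

theorem continuous_rt (c : A) : Continuous (rt N g hg c) := by
  rw [continuous_generateFrom_iff]
  intro t ht
  simp only [mem_iUnion, mem_singleton_iff, exists_prop] at ht
  obtain ⟨i, s, hs, rfl⟩ := ht
  apply TopologicalSpace.GenerateOpen.basic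
  simp only [mem_iUnion, mem_singleton_iff, exists_prop]
  refine ⟨i, (fun q : X × A => (q.1, q.2 * c)) ⁻¹' s, ?_, ?_⟩
  · apply hs.preimage
    exact continuous_fst.prodMk
      ((continuous_of_discreteTopology (f := fun b : A => b * c)).comp continuous_snd)
  · ext e
    obtain ⟨x, a⟩ := e
    change A at a
    have h1 : (core N g hg).coordChange x i x (a * c) = (core N g hg).coordChange x i x a * c := by
      change g i x * (g x x)⁻¹ * (a * c) = g i x * (g x x)⁻¹ * a * c
      group
    constructor
    · rintro ⟨h2, h3⟩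
      refine ⟨h2, ?_⟩
      change (x, (core N g hg).coordChange x i x (a * c)) ∈ s at h3
      rw [h1] at h3
      exact h3
    · rintro ⟨h2, h3⟩
      refine ⟨h2, ?_⟩
      change (x, (core N g hg).coordChange x i x (a * c)) ∈ s
      rw [h1]
      exact h3

theorem cov : IsCoveringMap (core N g hg).proj :=
  FiberBundle.isCoveringMap (F := A) (E := (core N g hg).Fiber)

/-- A point of the fibre over `x`. -/
def pt (x : X) (a : A) : (core N g hg).proj ⁻¹' {x} := ⟨⟨x, a⟩, rfl⟩

theorem mono_rt {x y : X} (γ : Path.Homotopic.Quotient x y) (e : (core N g hg).proj ⁻¹' {x})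
    (c : A) :
    (cov N g hg).monodromy γ ⟨rt N g hg c e.1, e.2⟩ =
      ⟨rt N g hg c ((cov N g hg).monodromy γ e).1, ((cov N g hg).monodromy γ e).2⟩ := by
  let Γ := (cov N g hg).liftPathQuotient γ e
  let g' : C((core N g hg).TotalSpace, (core N g hg).TotalSpace) :=
    ⟨rt N g hg c, continuous_rt N g hg c⟩
  let p' : C((core N g hg).TotalSpace, X) := ⟨(core N g hg).proj, (cov N g hg).continuous⟩
  have hgp : p'.comp g' = p' := by ext e; rfl
  refine (cov N g hg).monodromy_eq_of_map_eq (Γ.map g') ?_
  have h1 := (cov N g hg).map_liftPathQuotient γ e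
  have h2 : (Γ.map g').map p' = Γ.map (p'.comp g') := Path.Homotopic.Quotient.map_comp.symm
  exact h2.trans h1

theorem mono_pt {x y : X} (γ : Path.Homotopic.Quotient x y) :
    ∃ a : A, ∀ c : A, (cov N g hg).monodromy γ (pt N g hg x c) = pt N g hg y (a * c) := by
  obtain ⟨a, ha⟩ : ∃ a : A, (cov N g hg).monodromy γ (pt N g hg x 1) = pt N g hg y a := by
    obtain ⟨⟨y', b⟩, hb⟩ := (cov N g hg).monodromy γ (pt N g hg x 1)
    have hb' : y' = y := hb
    subst hb'
    exact ⟨b, rfl⟩
  refine ⟨a, fun c => ?_⟩
  have h := mono_rt N g hg γ (pt N g hg x 1) c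
  rw [ha] at h
  have h1 : (⟨rt N g hg c (pt N g hg x 1).1, (pt N g hg x 1).2⟩ :
      (core N g hg).proj ⁻¹' {x}) = pt N g hg x c := by
    apply Subtype.ext
    change (⟨x, (1 : A) * c⟩ : (core N g hg).TotalSpace) = ⟨x, c⟩
    rw [one_mul]
  rw [← h1]
  exact h

/-- The transported coordinate. -/
noncomputable def co {x y : X} (γ : Path.Homotopic.Quotient x y) : A :=
  (mono_pt N g hg γ).choose

theorem co_spec {x y : X} (γ : Path.Homotopic.Quotient x y) (c : A) :
    (cov N g hg).monodromy γ (pt N g hg x c) = pt N g hg y (co N g hg γ * c) :=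
  (mono_pt N g hg γ).choose_spec c

theorem pt_inj {x : X} {a b : A} (h : pt N g hg x a = pt N g hg x b) : a = b := by
  have h1 : (⟨x, a⟩ : (core N g hg).TotalSpace) = ⟨x, b⟩ := congrArg Subtype.val h
  injection h1

theorem co_trans {x y z : X} (γ : Path.Homotopic.Quotient x y)
    (γ' : Path.Homotopic.Quotient y z) :
    co N g hg (γ.trans γ') = co N g hg γ' * co N g hg γ := by
  have h := (cov N g hg).monodromy_trans_apply γ γ' (pt N g hg x 1)
  rw [co_spec, co_spec, co_spec] at h
  have := pt_inj N g hg h
  simpa using this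

theorem co_small {x y : X} (p : Path x y) (hp : ∀ t, p t ∈ N.U x) :
    co N g hg (Path.Homotopic.Quotient.mk p) = (g x y)⁻¹ := by
  have hs := g_self N g hg
  let P : I → (core N g hg).TotalSpace := fun t => mkE N g hg (p t) (g x (p t))⁻¹
  have hP : Continuous P := by
    have h1 := ((core N g hg).localTriv x).continuousOn_invFun
    have h2 : Continuous fun t => (p t, (1 : A)) := p.continuous.prodMk continuous_const
    have h3 : Continuous fun t => ((core N g hg).localTriv x).invFun (p t, (1 : A)) := by
      refine h1.comp_continuous h2 fun t => ?_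
      exact ⟨hp t, trivial⟩
    refine h3.congr fun t => ?_
    change mkE N g hg (p t) (g (p t) (p t) * (g x (p t))⁻¹ * 1) =
      mkE N g hg (p t) (g x (p t))⁻¹
    rw [hs, one_mul, mul_one]
  have h0 : P 0 = (pt N g hg x 1).1 := by
    change mkE N g hg (p 0) (g x (p 0))⁻¹ = mkE N g hg x 1
    rw [p.source, hs, inv_one]
  have h1 : P 1 = (pt N g hg y (g x y)⁻¹).1 := by
    change mkE N g hg (p 1) (g x (p 1))⁻¹ = mkE N g hg y (g x y)⁻¹
    rw [p.target]
  let Γ : Path (pt N g hg x 1).1 (pt N g hg y (g x y)⁻¹).1 := ⟨⟨P, hP⟩, h0, h1⟩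
  have h2 : (cov N g hg).monodromy (Path.Homotopic.Quotient.mk p) (pt N g hg x 1) =
      pt N g hg y (g x y)⁻¹ := by
    refine (cov N g hg).monodromy_eq_of_map_eq (Path.Homotopic.Quotient.mk Γ) ?_
    refine congr_arg Path.Homotopic.Quotient.mk ?_
    ext t
    rfl
  rw [co_spec] at h2
  have := pt_inj N g hg h2
  simpa using this

end

/-- Holonomy of a locally constant cocycle. -/
theorem hol : S_hol := by
  intro X _ N A _ g hg
  let _ : TopologicalSpace A := ⊥
  have _ : DiscreteTopology A := ⟨rfl⟩
  refine ⟨fun x y γ => (co N g hg γ)⁻¹, ?_, ?_⟩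
  · intro x y z p q
    change (co N g hg (p.trans q))⁻¹ = (co N g hg p)⁻¹ * (co N g hg q)⁻¹
    rw [co_trans, mul_inv_rev]
  · intro x y p hp
    change (co N g hg (Path.Homotopic.Quotient.mk p))⁻¹ = g x y
    rw [co_small N g hg p hp, inv_inv]

end Pool.Agent.W369.GB
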