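import Pool.Agent.W584.GB.Defs

set_option autoImplicit false

/-!
# Star neighbourhoods of unordered configurations (project GB, S_nbhd)
-/

namespace Pool.Agent.W369.GB

open Pool.Agent.W584.GB Set Topology

section

variable {V : Type} [Fintype V] [DecidableEq V] {G : SimpleGraph V}

theorem mk_perm (f : Conf G) (σ : Equiv.Perm (Fin 3)) :
    Quot.mk (PermRel G) (f.perm σ) = Quot.mk (PermRel G) f :=
  (Quot.sound (⟨σ, rfl⟩ : PermRel G f (f.perm σ))).symm

theorem perm_one (f : Conf G) : f.perm 1 = f := rfl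

/-- The neighbourhood of an unordered configuration. -/
def UU (x : UC G) : Set (UC G) :=
  {y | ∃ f f' : Conf G, Quot.mk (PermRel G) f = x ∧ f' ∈ St f ∧ Quot.mk (PermRel G) f' = y}

theorem UU_eq (hn : S_nest) (hq : S_quot) (f : Conf G) :
    UU (Quot.mk (PermRel G) f) = Quot.mk (PermRel G) '' St f := by
  ext y
  constructor
  · rintro ⟨g, g', h1, h2, rfl⟩
    obtain ⟨σ, hσ⟩ := (hq V G).2 g f h1
    refine ⟨g'.perm σ, ?_, mk_perm g' σ⟩
    rw [hσ]
    exact (hn V G g).2.2 σ g' h2
  · rintro ⟨g', h1, rfl⟩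
    exact ⟨f, g', rfl, h1, rfl⟩

end

/-- Star neighbourhoods of unordered configurations. -/
theorem nbhd : S_open → S_contr → S_nest → S_inj → S_quot → S_nbhd := by
  intro ho hc hn hi hq V _ _ G hG
  have hqc : Continuous (Quot.mk (PermRel G)) := continuous_quot_mk
  refine ⟨⟨UU, ?_, ?_, ?_, ?_⟩, fun f => UU_eq hn hq f⟩
  · intro x
    induction x using Quot.ind with
    | mk f =>
    rw [UU_eq hn hq f]
    exact (hq V G).1 _ (ho V G f)
  · intro x
    induction x using Quot.ind with
    | mk f =>
    rw [UU_eq hn hq f]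
    exact ⟨f, (hn V G f).1, rfl⟩
  · intro x y hy
    induction x using Quot.ind with
    | mk f =>
    rw [UU_eq hn hq f] at hy ⊢
    obtain ⟨f', hf', rfl⟩ := hy
    rw [UU_eq hn hq f']
    apply image_mono
    intro f'' hf''
    exact (hn V G f).2.1 f' hf' f'' hf''
  · intro x
    induction x using Quot.ind with
    | mk f =>
    rw [UU_eq hn hq f]
    have hcf := hc V G f
    let e : St f → UC G := fun g => Quot.mk (PermRel G) g.1
    have he1 : Continuous e := hqc.comp continuous_subtype_val
    have he2 : Function.Injective e := by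
      rintro ⟨f1, h1⟩ ⟨f2, h2⟩ h12
      obtain ⟨σ, hσ⟩ := (hq V G).2 f1 f2 h12
      have h3 : σ = 1 := hi V G hG f f1 σ h1 (by rw [← hσ]; exact h2)
      apply Subtype.ext
      change f1 = f2
      rw [hσ, h3, perm_one]
    have he3 : IsOpenMap e := (hq V G).1.comp (ho V G f).isOpenMap_subtype_val
    have he4 : IsOpenEmbedding e := .of_continuous_injective_isOpenMap he1 he2 he3
    have he5 : range e = Quot.mk (PermRel G) '' St f := by
      ext y
      constructor
      · rintro ⟨g, rfl⟩
        exact ⟨g.1, g.2, rfl⟩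
      · rintro ⟨g, hg, rfl⟩
        exact ⟨⟨g, hg⟩, rfl⟩
    have h6 : SimplyConnectedSpace (St f) := inferInstance
    have h7 : SimplyConnectedSpace (range e) :=
      ContinuousMap.HomotopyEquiv.simplyConnectedSpace
        (he4.toIsEmbedding.toHomeomorph.toHomotopyEquiv.symm)
    rw [he5] at h7
    exact h7

end Pool.Agent.W369.GB
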