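import Pool.Agent.W584.GB.Defs

set_option autoImplicit false

/-!
# The star is open; nesting of stars (project GB, S_open and S_nest)
-/

namespace Pool.Agent.W369.GB

open Pool.Agent.W584.GB Set Topology

theorem pt_nonneg {V : Type} [DecidableEq V] {G : SimpleGraph V} (p : Pt G) (z : V) :
    0 ≤ p.1 z := by
  obtain ⟨p, u, v, -, t, h0, h1, rfl⟩ := p
  have h2 : 0 ≤ 1 - t := by linarith
  have e1 : 0 ≤ (Pi.single u (1 : ℝ) : V → ℝ) z := by
    rw [Pi.single_apply]; split_ifs <;> norm_num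
  have e2 : 0 ≤ (Pi.single v (1 : ℝ) : V → ℝ) z := by
    rw [Pi.single_apply]; split_ifs <;> norm_num
  change 0 ≤ t * (Pi.single u (1 : ℝ) : V → ℝ) z + (1 - t) * (Pi.single v (1 : ℝ) : V → ℝ) z
  positivity

/-- The star is open. -/
theorem open_star : S_open := by
  intro V _ _ G f
  have hev : ∀ (i : Fin 3) (u : V), Continuous fun f' : Conf G => (f'.1 i).1 u := by
    intro i u
    exact (continuous_apply u).comp (continuous_subtype_val.comp
      ((continuous_apply i).comp continuous_subtype_val))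
  have h1 : St f = (⋂ i, ⋂ u, {f' : Conf G | 0 < (f.1 i).1 u → 0 < (f'.1 i).1 u}) ∩
      ⋂ i, ⋂ j, ⋂ u, ⋂ w, {f' : Conf G | G.Adj u w →
        (∀ z, z ≠ u → z ≠ w → (f'.1 i).1 z = 0) → (∀ z, z ≠ u → z ≠ w → (f'.1 j).1 z = 0) →
        (f.1 i).1 u < (f.1 j).1 u → (f'.1 i).1 u < (f'.1 j).1 u} := by
    ext f'
    simp only [St, mem_ofPred_eq, mem_inter_iff, mem_iInter]
  rw [h1]
  apply IsOpen.inter
  · refine isOpen_iInter_of_finite fun i => isOpen_iInter_of_finite fun u => ?_
    by_cases h : 0 < (f.1 i).1 u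
    · simp only [h, forall_const]
      exact isOpen_lt continuous_const (hev i u)
    · simp only [h, false_imp_iff, ofPred_true, isOpen_univ]
  · refine isOpen_iInter_of_finite fun i => isOpen_iInter_of_finite fun j =>
      isOpen_iInter_of_finite fun u => isOpen_iInter_of_finite fun w => ?_
    by_cases h : G.Adj u w ∧ (f.1 i).1 u < (f.1 j).1 u
    · have h2 : {f' : Conf G | G.Adj u w →
          (∀ z, z ≠ u → z ≠ w → (f'.1 i).1 z = 0) → (∀ z, z ≠ u → z ≠ w → (f'.1 j).1 z = 0) →
          (f.1 i).1 u < (f.1 j).1 u → (f'.1 i).1 u < (f'.1 j).1 u} =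
          ((⋂ z, {f' : Conf G | z ≠ u → z ≠ w → (f'.1 i).1 z = 0}) ∩
            (⋂ z, {f' : Conf G | z ≠ u → z ≠ w → (f'.1 j).1 z = 0}) ∩
            {f' : Conf G | (f'.1 j).1 u ≤ (f'.1 i).1 u})ᶜ := by
        ext f'
        simp only [mem_ofPred_eq, mem_compl_iff, mem_inter_iff, mem_iInter, not_and, not_le]
        constructor
        · rintro h3 ⟨h4, h5⟩
          exact h3 h.1 h4 h5 h.2
        · intro h3 _ h4 h5 _
          exact h3 ⟨h4, h5⟩
      rw [h2, isOpen_compl_iff]
      have hz : ∀ (i : Fin 3) (z : V),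
          IsClosed {f' : Conf G | z ≠ u → z ≠ w → (f'.1 i).1 z = 0} := by
        intro i z
        by_cases h3 : z ≠ u ∧ z ≠ w
        · simp only [h3.1, h3.2, ne_eq, not_false_eq_true, forall_const]
          exact isClosed_eq (hev i z) continuous_const
        · have : {f' : Conf G | z ≠ u → z ≠ w → (f'.1 i).1 z = 0} = univ := by
            ext f'
            simp only [mem_ofPred_eq, mem_univ, iff_true]
            intro h4 h5
            exact absurd ⟨h4, h5⟩ h3
          rw [this]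
          exact isClosed_univ
      exact ((isClosed_iInter fun z => hz i z).inter (isClosed_iInter fun z => hz j z)).inter
        (isClosed_le (hev j u) (hev i u))
    · have : {f' : Conf G | G.Adj u w →
          (∀ z, z ≠ u → z ≠ w → (f'.1 i).1 z = 0) → (∀ z, z ≠ u → z ≠ w → (f'.1 j).1 z = 0) →
          (f.1 i).1 u < (f.1 j).1 u → (f'.1 i).1 u < (f'.1 j).1 u} = univ := by
        ext f'
        simp only [mem_ofPred_eq, mem_univ, iff_true]
        intro h2 _ _ h3
        exact absurd ⟨h2, h3⟩ h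
      rw [this]
      exact isOpen_univ

/-- Nesting of stars. -/
theorem nest : S_nest := by
  intro V _ _ G f
  refine ⟨⟨fun _ _ h => h, fun _ _ _ _ _ _ _ h => h⟩, ?_, ?_⟩
  · rintro f' ⟨h1, h2⟩ f'' ⟨h3, h4⟩
    refine ⟨fun i u h => h3 i u (h1 i u h), ?_⟩
    intro i j u w huw hi hj hlt
    have key : ∀ (i : Fin 3), (∀ z, z ≠ u → z ≠ w → (f''.1 i).1 z = 0) →
        ∀ z, z ≠ u → z ≠ w → (f'.1 i).1 z = 0 := by
      intro i hi z hzu hzw
      by_contra hne
      have h5 : 0 < (f'.1 i).1 z := lt_of_le_of_ne (pt_nonneg _ _) (Ne.symm hne)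
      have h6 := h3 i z h5
      rw [hi z hzu hzw] at h6
      exact lt_irrefl _ h6
    exact h4 i j u w huw hi hj (h2 i j u w huw (key i hi) (key j hj) hlt)
  · rintro σ f' ⟨h1, h2⟩
    refine ⟨fun i u h => h1 (σ i) u h, ?_⟩
    intro i j u w huw hi hj hlt
    exact h2 (σ i) (σ j) u w huw hi hj hlt

end Pool.Agent.W369.GB
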