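import Pool.Agent.W369.GB.Op

set_option autoImplicit false

/-!
# The quotient map and cells (project GB, S_quot and S_cell)
-/

namespace Pool.Agent.W369.GB

open Pool.Agent.W584.GB Set Topology

theorem exists_perm_of_eqvGen {V : Type} [Fintype V] [DecidableEq V] {G : SimpleGraph V}
    (f f' : Conf G) (h : Relation.EqvGen (PermRel G) f f') :
    ∃ σ : Equiv.Perm (Fin 3), f' = f.perm σ := by
  induction h with
  | rel f g h =>
    obtain ⟨σ, hσ⟩ := h
    exact ⟨σ, Subtype.ext hσ⟩
  | refl f => exact ⟨1, rfl⟩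
  | symm f g _ ih =>
    obtain ⟨σ, rfl⟩ := ih
    refine ⟨σ⁻¹, ?_⟩
    apply Subtype.ext
    funext i
    simp [Conf.perm]
  | trans f g k _ _ ih1 ih2 =>
    obtain ⟨σ, rfl⟩ := ih1
    obtain ⟨τ, rfl⟩ := ih2
    exact ⟨σ * τ, rfl⟩

/-- The quotient map is open. -/
theorem quot : S_quot := by
  intro V _ _ G
  refine ⟨?_, fun f f' h => exists_perm_of_eqvGen f f' (Quot.eqvGen_exact h)⟩
  intro O hO
  rw [← isQuotientMap_quot_mk.isOpen_preimage]
  have h1 : Quot.mk (PermRel G) ⁻¹' (Quot.mk (PermRel G) '' O) =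
      ⋃ σ : Equiv.Perm (Fin 3), (fun f : Conf G => f.perm σ) ⁻¹' O := by
    ext f
    simp only [mem_preimage, mem_image, mem_iUnion]
    constructor
    · rintro ⟨g, hg, h2⟩
      obtain ⟨σ, hσ⟩ := exists_perm_of_eqvGen f g (Quot.eqvGen_exact h2.symm)
      exact ⟨σ, by rw [← hσ]; exact hg⟩
    · rintro ⟨σ, hσ⟩
      exact ⟨_, hσ, (Quot.sound (⟨σ, rfl⟩ : PermRel G f (f.perm σ))).symm⟩
  rw [h1]
  refine isOpen_iUnion fun σ => hO.preimage ?_
  refine Continuous.subtype_mk ?_ _
  exact continuous_pi fun i => (continuous_apply (σ i)).comp continuous_subtype_val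

theorem pt_sum {V : Type} [Fintype V] [DecidableEq V] {G : SimpleGraph V} (p : Pt G) :
    ∑ z, p.1 z = 1 := by
  obtain ⟨p, u, v, -, t, h0, h1, rfl⟩ := p
  change ∑ z, (t * (Pi.single u (1 : ℝ) : V → ℝ) z + (1 - t) * (Pi.single v (1 : ℝ) : V → ℝ) z) = 1
  rw [Finset.sum_add_distrib, ← Finset.mul_sum, ← Finset.mul_sum, Finset.sum_pi_single',
    Finset.sum_pi_single']
  simp

theorem mem_supp {V : Type} [Fintype V] [DecidableEq V] {G : SimpleGraph V} (p : Pt G) (z : V) :
    z ∈ supp p ↔ p.1 z ≠ 0 := by
  simp [supp]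

/-- Supports are cells. -/
theorem cell : S_cell := by
  intro V _ _ G
  refine ⟨?_, ?_, ?_⟩
  · intro p
    obtain ⟨p, u, v, huv, t, h0, h1, rfl⟩ := p
    by_cases huv' : u = v
    · subst huv'
      left
      refine ⟨u, ?_⟩
      ext z
      rw [mem_supp, Finset.mem_singleton]
      change t * (Pi.single u (1 : ℝ) : V → ℝ) z + (1 - t) * (Pi.single u (1 : ℝ) : V → ℝ) z ≠ 0 ↔ _
      rw [← add_mul]
      by_cases hz : z = u
      · subst hz; simp
      · simp [hz]
    · have hadj : G.Adj u v := by
        rcases huv with h | h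
        · exact absurd h huv'
        · exact h
      by_cases ht0 : t = 0
      · left
        refine ⟨v, ?_⟩
        ext z
        rw [mem_supp, Finset.mem_singleton]
        change t * (Pi.single u (1 : ℝ) : V → ℝ) z + (1 - t) * (Pi.single v (1 : ℝ) : V → ℝ) z ≠ 0
          ↔ _
        by_cases hz : z = v
        · subst hz; simp [ht0]
        · simp [ht0, hz]
      · by_cases ht1 : t = 1
        · left
          refine ⟨u, ?_⟩
          ext z
          rw [mem_supp, Finset.mem_singleton]
          change t * (Pi.single u (1 : ℝ) : V → ℝ) z +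
            (1 - t) * (Pi.single v (1 : ℝ) : V → ℝ) z ≠ 0 ↔ _
          by_cases hz : z = u
          · subst hz; simp [ht1]
          · simp [ht1, hz]
        · right
          refine ⟨u, v, hadj, ?_⟩
          ext z
          rw [mem_supp, Finset.mem_insert, Finset.mem_singleton]
          change t * (Pi.single u (1 : ℝ) : V → ℝ) z +
            (1 - t) * (Pi.single v (1 : ℝ) : V → ℝ) z ≠ 0 ↔ _
          have h1t : 1 - t ≠ 0 := fun h => ht1 (by linarith)
          by_cases hz : z = u
          · subst hz; simp [ht0, huv']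
          · by_cases hz' : z = v
            · subst hz'; simp [hz, h1t]
            · simp [hz, hz']
  · intro p q u hp hq
    have key : ∀ p : Pt G, supp p = {u} → ∀ z, p.1 z = if z = u then 1 else 0 := by
      intro p hp z
      have h1 : ∀ z, z ≠ u → p.1 z = 0 := by
        intro z hz
        by_contra hne
        have : z ∈ supp p := (mem_supp p z).2 hne
        rw [hp, Finset.mem_singleton] at this
        exact hz this
      by_cases hz : z = u
      · subst hz
        rw [if_pos rfl]
        have h2 := pt_sum p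
        rw [Finset.sum_eq_single z (fun w _ hw => h1 w hw) (by simp)] at h2
        exact h2
      · rw [if_neg hz]
        exact h1 z hz
    apply Subtype.ext
    funext z
    rw [key p hp, key q hq]
  · intro f f' hf' i z hz
    rw [mem_supp] at hz ⊢
    have h1 : 0 < (f.1 i).1 z := lt_of_le_of_ne (pt_nonneg _ _) (Ne.symm hz)
    exact (hf'.1 i z h1).ne'

end Pool.Agent.W369.GB
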