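import Pool.Agent.W837.GB.Defs

/-!
# GB-MIN: existence of a minimiser of the capacity functional
-/

set_option autoImplicit false
open Filter Topology
open scoped Matrix ComplexOrder

namespace Pool.Agent.W369.GB
open Pool.Agent.W837.GB Matrix

namespace Mn

/-! ### Cauchy-Binet -/

theorem cb_aux {m : ℕ} {ι : Type} [Fintype ι] [DecidableEq ι] (P : Matrix (Fin m) ι ℂ)
    (Q : Matrix ι (Fin m) ℂ) :
    (P * Q).det = ∑ a : Fin m → ι, (P.submatrix id a).det * ∏ i, Q (a i) i := by
  rw [det_apply']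
  have h1 : ∀ σ : Equiv.Perm (Fin m), ∏ i, (P * Q) (σ i) i =
      ∑ a : Fin m → ι, (∏ i, P (σ i) (a i)) * ∏ i, Q (a i) i := by
    intro σ
    simp only [Matrix.mul_apply]
    rw [Finset.prod_univ_sum, Fintype.piFinset_univ]
    apply Finset.sum_congr rfl
    intro a _
    rw [Finset.prod_mul_distrib]
  simp only [h1, Finset.mul_sum]
  rw [Finset.sum_comm]
  apply Finset.sum_congr rfl
  intro a _
  rw [det_apply', Finset.sum_mul]
  apply Finset.sum_congr rfl
  intro σ _
  simp only [Matrix.submatrix_apply, id]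
  ring

theorem cauchyBinet {m : ℕ} {ι : Type} [Fintype ι] [DecidableEq ι] (P : Matrix (Fin m) ι ℂ)
    (Q : Matrix ι (Fin m) ℂ) :
    (P * Q).det = (m.factorial : ℂ)⁻¹ * ∑ a : Fin m → ι, (P.submatrix id a).det * (Q.submatrix a id).det := by
  have h1 : ∀ τ : Equiv.Perm (Fin m), (P * Q).det =
      ∑ a : Fin m → ι, (P.submatrix id a).det * (((Equiv.Perm.sign τ : ℤ) : ℂ) * ∏ i, Q (a (τ i)) i) := by
    intro τ
    rw [cb_aux, ← Equiv.sum_comp (Equiv.arrowCongr τ.symm (Equiv.refl ι))]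
    apply Finset.sum_congr rfl
    intro a _
    have e : (Equiv.arrowCongr τ.symm (Equiv.refl ι)) a = a ∘ τ := by
      ext i
      simp [Equiv.arrowCongr]
    rw [e]
    have e2 : P.submatrix id (a ∘ τ) = (P.submatrix id a).submatrix id τ := rfl
    rw [e2, Matrix.det_permute']
    simp only [Function.comp_apply]
    ring
  have h2 : (m.factorial : ℂ) * (P * Q).det =
      ∑ a : Fin m → ι, (P.submatrix id a).det * (Q.submatrix a id).det := by
    have h3 : ∑ τ : Equiv.Perm (Fin m), (P * Q).det = (m.factorial : ℂ) * (P * Q).det := by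
      rw [Finset.sum_const, Finset.card_univ, Fintype.card_perm, Fintype.card_fin, nsmul_eq_mul]
    rw [← h3, Finset.sum_congr rfl (fun τ _ => h1 τ), Finset.sum_comm]
    apply Finset.sum_congr rfl
    intro a _
    rw [← Finset.mul_sum, det_apply' (Q.submatrix a id)]
    rfl
  rw [← h2, inv_mul_cancel_left₀]
  exact_mod_cast Nat.factorial_ne_zero m

theorem det_gram {m : ℕ} {ι : Type} [Fintype ι] [DecidableEq ι] (R : Matrix ι (Fin m) ℂ) :
    (Rᴴ * R).det.re = (m.factorial : ℝ)⁻¹ * ∑ c : Fin m → ι, Complex.normSq (R.submatrix c id).det := by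
  have h : (Rᴴ * R).det = (((m.factorial : ℝ)⁻¹ * ∑ c : Fin m → ι, Complex.normSq (R.submatrix c id).det : ℝ) : ℂ) := by
    rw [cauchyBinet]
    push_cast
    congr 1
    refine Finset.sum_congr rfl (fun c _ => ?_)
    have e : Rᴴ.submatrix id c = (R.submatrix c id)ᴴ := by
      ext i j; simp [Matrix.conjTranspose_apply]
    rw [e, Matrix.det_conjTranspose, Complex.star_def, Complex.normSq_eq_conj_mul_self]
  rw [h, Complex.ofReal_re]

/-! ### The expansion of `det (eta a b)` in a spectral basis -/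

/-- the determinant attached to a choice of columns -/
noncomputable def D {n m : ℕ} (a : Fin n → Matrix (Fin m) (Fin m) ℂ) (c : Fin m → Fin m × Fin n)
    (V : Matrix (Fin m) (Fin m) ℂ) : ℂ :=
  (Matrix.of fun (k x : Fin m) => (a (c k).2 * V) x (c k).1).det

noncomputable def R {n m : ℕ} (a : Fin n → Matrix (Fin m) (Fin m) ℂ)
    (V : Matrix (Fin m) (Fin m) ℂ) (t : Fin m → ℝ) : Matrix (Fin m × Fin n) (Fin m) ℂ :=
  Matrix.of fun p x => ((Real.sqrt (t p.1) : ℝ) : ℂ) * star ((a p.2 * V) x p.1)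

/-- `V diag(t) V*` -/
noncomputable def B {m : ℕ} (V : Matrix (Fin m) (Fin m) ℂ) (t : Fin m → ℝ) :
    Matrix (Fin m) (Fin m) ℂ := V * diagonal (fun i => (t i : ℂ)) * Vᴴ

theorem eta_eq {n m : ℕ} (a : Fin n → Matrix (Fin m) (Fin m) ℂ)
    (V : Matrix (Fin m) (Fin m) ℂ) (t : Fin m → ℝ) (ht : ∀ i, 0 ≤ t i) :
    eta a (B V t) = (R a V t)ᴴ * R a V t := by
  ext x y
  rw [eta, Matrix.sum_apply, Matrix.mul_apply, Fintype.sum_prod_type, Finset.sum_comm]
  refine Finset.sum_congr rfl fun j _ => ?_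
  have e : a j * B V t * (a j)ᴴ = (a j * V) * diagonal (fun i => (t i : ℂ)) * (a j * V)ᴴ := by
    rw [B, Matrix.conjTranspose_mul]
    simp only [Matrix.mul_assoc]
  rw [e, Matrix.mul_apply]
  refine Finset.sum_congr rfl fun i _ => ?_
  rw [Matrix.mul_diagonal, Matrix.conjTranspose_apply, Matrix.conjTranspose_apply, R, Matrix.of_apply,
    Matrix.of_apply, star_mul', star_star]
  have h : ((Real.sqrt (t i) : ℝ) : ℂ) * ((Real.sqrt (t i) : ℝ) : ℂ) = (t i : ℂ) := by
    rw [← Complex.ofReal_mul, Real.mul_self_sqrt (ht i)]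
  have h2 : star ((Real.sqrt (t i) : ℝ) : ℂ) = ((Real.sqrt (t i) : ℝ) : ℂ) := Complex.conj_ofReal _
  simp only
  rw [h2, ← h]
  ring

theorem sub_det {n m : ℕ} (a : Fin n → Matrix (Fin m) (Fin m) ℂ)
    (V : Matrix (Fin m) (Fin m) ℂ) (t : Fin m → ℝ) (ht : ∀ i, 0 ≤ t i) (c : Fin m → Fin m × Fin n) :
    Complex.normSq ((R a V t).submatrix c id).det = (∏ k, t (c k).1) * Complex.normSq (D a c V) := by
  have e : (R a V t).submatrix c id = diagonal (fun k => ((Real.sqrt (t (c k).1) : ℝ) : ℂ)) *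
      ((Matrix.of fun (k x : Fin m) => (a (c k).2 * V) x (c k).1)ᴴ)ᵀ := by
    ext k x
    rw [Matrix.diagonal_mul]
    rfl
  rw [e, Matrix.det_mul, Matrix.det_diagonal, Matrix.det_transpose, Matrix.det_conjTranspose,
    Complex.normSq_mul, Complex.star_def, Complex.normSq_conj, map_prod]
  congr 1
  refine Finset.prod_congr rfl fun k _ => ?_
  rw [Complex.normSq_ofReal, Real.mul_self_sqrt (ht _)]

/-- the expansion -/
noncomputable def F {n m : ℕ} (a : Fin n → Matrix (Fin m) (Fin m) ℂ)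
    (V : Matrix (Fin m) (Fin m) ℂ) (t : Fin m → ℝ) : ℝ :=
  (m.factorial : ℝ)⁻¹ * ∑ c : Fin m → Fin m × Fin n, (∏ k, t (c k).1) * Complex.normSq (D a c V)

theorem det_eta {n m : ℕ} (a : Fin n → Matrix (Fin m) (Fin m) ℂ)
    (V : Matrix (Fin m) (Fin m) ℂ) (t : Fin m → ℝ) (ht : ∀ i, 0 ≤ t i) :
    (eta a (B V t)).det.re = F a V t := by
  rw [eta_eq a V t ht, det_gram, F]
  congr 1
  exact Finset.sum_congr rfl fun c _ => sub_det a V t ht c

theorem det_B {m : ℕ} (V : Matrix (Fin m) (Fin m) ℂ) (hV : Vᴴ * V = 1) (t : Fin m → ℝ) :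
    (B V t).det.re = ∏ i, t i := by
  have h : (B V t).det = ((∏ i, t i : ℝ) : ℂ) := by
    rw [B, Matrix.det_mul, Matrix.det_mul, Matrix.det_diagonal, mul_comm V.det, mul_assoc,
      mul_comm V.det, ← Matrix.det_mul, hV, Matrix.det_one, mul_one]
    push_cast
    rfl
  rw [h, Complex.ofReal_re]

theorem F_scale {n m : ℕ} (a : Fin n → Matrix (Fin m) (Fin m) ℂ)
    (V : Matrix (Fin m) (Fin m) ℂ) (t : Fin m → ℝ) (s : ℝ) :
    F a V (fun i => s * t i) = s ^ m * F a V t := by
  have h : ∀ c : Fin m → Fin m × Fin n, (∏ k, s * t (c k).1) * Complex.normSq (D a c V) =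
      s ^ m * ((∏ k, t (c k).1) * Complex.normSq (D a c V)) := by
    intro c
    rw [Finset.prod_mul_distrib, Finset.prod_const, Finset.card_univ, Fintype.card_fin, mul_assoc]
  rw [F, F, Finset.sum_congr rfl fun c _ => h c, ← Finset.mul_sum, mul_left_comm]

/-! ### Greedy choice -/

theorem greedy {E ι : Type} [AddCommGroup E] [Module ℂ E] [FiniteDimensional ℂ E] (w : ι → E)
    (S : ℕ → Set ι) : ∀ m : ℕ, (∀ k, k < m → k < Module.finrank ℂ (Submodule.span ℂ (w '' S k))) →
    ∃ c : Fin m → ι, (∀ k : Fin m, c k ∈ S k) ∧ LinearIndependent ℂ (fun k => w (c k)) := by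
  intro m
  induction m with
  | zero =>
    intro _
    exact ⟨fun k => k.elim0, fun k => k.elim0, linearIndependent_empty_type⟩
  | succ m ih =>
    intro h
    obtain ⟨c, hc, hl⟩ := ih fun k hk => h k (by omega)
    have h1 : ∃ x ∈ S m, w x ∉ Submodule.span ℂ (Set.range fun k => w (c k)) := by
      by_contra hcon
      push Not at hcon
      have h2 : Submodule.span ℂ (w '' S m) ≤ Submodule.span ℂ (Set.range fun k => w (c k)) := by
        rw [Submodule.span_le]
        rintro _ ⟨x, hx, rfl⟩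
        exact hcon x hx
      have h3 := Submodule.finrank_mono h2
      have h4 := finrank_span_eq_card hl
      rw [Fintype.card_fin] at h4
      have h5 := h m (by omega)
      omega
    obtain ⟨x, hx, hxs⟩ := h1
    refine ⟨Fin.snoc (α := fun _ => ι) c x, ?_, ?_⟩
    · intro k
      refine Fin.lastCases ?_ (fun i => ?_) k
      · rw [Fin.snoc_last]
        exact hx
      · rw [Fin.snoc_castSucc]
        exact hc i
    · have e : (fun k => w ((Fin.snoc (α := fun _ => ι) c x : Fin (m + 1) → ι) k)) =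
          Fin.snoc (α := fun _ => E) (fun k => w (c k)) (w x) := by
        funext k
        refine Fin.lastCases ?_ (fun i => ?_) k
        · rw [Fin.snoc_last, Fin.snoc_last]
        · rw [Fin.snoc_castSucc, Fin.snoc_castSucc]
      rw [e, linearIndependent_finSnoc]
      exact ⟨hl, hxs⟩

/-- good choices -/
def Good {n m : ℕ} (c : Fin m → Fin m × Fin n) : Prop :=
  ∀ k : Fin m, (c k).1.val < max k.val 1

theorem exists_good {n m : ℕ} (a : Fin n → Matrix (Fin m) (Fin m) ℂ) (hm : 1 ≤ m) (ha : Ind a)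
    (V : Matrix (Fin m) (Fin m) ℂ) (hV : Vᴴ * V = 1) :
    ∃ c : Fin m → Fin m × Fin n, Good c ∧ D a c V ≠ 0 := by
  let w : Fin m × Fin n → (Fin m → ℂ) := fun p => (a p.2) *ᵥ (V.col p.1)
  have hVl : LinearIndependent ℂ V.col := by
    rw [Matrix.linearIndependent_cols_iff_isUnit]
    exact (Matrix.isUnit_iff_isUnit_det _).2 (by
      have h : Vᴴ.det * V.det = 1 := by rw [← Matrix.det_mul, hV, Matrix.det_one]
      exact IsUnit.of_mul_eq_one_right _ h)
  have hS : ∀ k, k < m → k < Module.finrank ℂ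
      (Submodule.span ℂ (w '' {p : Fin m × Fin n | p.1.val < max k 1})) := by
    intro k hk
    have hk1 : max k 1 ≤ m := max_le hk.le hm
    let u : Fin (max k 1) → (Fin m → ℂ) := fun i => V.col (Fin.castLE hk1 i)
    have hul : LinearIndependent ℂ u := hVl.comp _ (Fin.castLE_injective hk1)
    let T : Submodule ℂ (Fin m → ℂ) := Submodule.span ℂ (Set.range u)
    have hT : Module.finrank ℂ T = max k 1 := by
      have := finrank_span_eq_card hul
      rwa [Fintype.card_fin] at this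
    have h1 : imS a T ≤ Submodule.span ℂ (w '' {p : Fin m × Fin n | p.1.val < max k 1}) := by
      rw [imS]
      refine iSup_le fun j => ?_
      rw [Submodule.map_span_le]
      rintro _ ⟨i, rfl⟩
      refine Submodule.subset_span ⟨(Fin.castLE hk1 i, j), ?_, rfl⟩
      exact i.isLt
    have h2 := Submodule.finrank_mono h1
    refine lt_of_lt_of_le ?_ h2
    by_cases hTt : T = ⊤
    · rw [hTt, ha.1, finrank_top, Module.finrank_fin_fun]
      exact hk
    · have hTb : T ≠ ⊥ := by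
        intro hb
        rw [hb, finrank_bot] at hT
        have : 1 ≤ max k 1 := le_max_right _ _
        omega
      have h3 := ha.2 T hTb hTt
      rw [hT] at h3
      exact lt_of_le_of_lt (le_max_left _ _) h3
  obtain ⟨c, hc, hl⟩ := greedy w (fun k => {p : Fin m × Fin n | p.1.val < max k 1}) m hS
  refine ⟨c, hc, ?_⟩
  have e : (Matrix.of fun (k x : Fin m) => (a (c k).2 * V) x (c k).1).row = fun k => w (c k) := by
    funext k x
    show (a (c k).2 * V) x (c k).1 = ((a (c k).2) *ᵥ (V.col (c k).1)) x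
    rw [Matrix.mul_apply, Matrix.mulVec, dotProduct]
    rfl
  rw [← e, Matrix.linearIndependent_rows_iff_isUnit, Matrix.isUnit_iff_isUnit_det] at hl
  exact hl.ne_zero

/-! ### Compactness -/

theorem isCompact_U (m : ℕ) : IsCompact {V : Matrix (Fin m) (Fin m) ℂ | Vᴴ * V = 1} := by
  have h1 : IsCompact (Set.pi Set.univ fun _ : Fin m => Set.pi Set.univ fun _ : Fin m =>
      Metric.closedBall (0 : ℂ) 1) :=
    isCompact_univ_pi fun _ => isCompact_univ_pi fun _ => isCompact_closedBall _ _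
  refine h1.of_isClosed_subset ?_ ?_
  · exact isClosed_eq (by fun_prop) continuous_const
  · intro V hV i _ j _
    rw [mem_closedBall_zero_iff]
    exact entry_norm_bound_of_unitary (Matrix.mem_unitaryGroup_iff'.2 hV) i j

theorem continuous_D {n m : ℕ} (a : Fin n → Matrix (Fin m) (Fin m) ℂ) (c : Fin m → Fin m × Fin n) :
    Continuous (D a c) := by
  unfold D
  refine Continuous.matrix_det (continuous_matrix fun k x => ?_)
  simp only [Matrix.of_apply]
  have : Continuous fun V : Matrix (Fin m) (Fin m) ℂ => a (c k).2 * V := by fun_prop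
  exact this.matrix_elem x (c k).1

/-- the constant of coercivity -/
theorem exists_const {n m : ℕ} (a : Fin n → Matrix (Fin m) (Fin m) ℂ) (hm : 1 ≤ m) (ha : Ind a) :
    ∃ κ : ℝ, 0 < κ ∧ ∀ V : Matrix (Fin m) (Fin m) ℂ, Vᴴ * V = 1 →
      κ ≤ ∑ c : Fin m → Fin m × Fin n, (open Classical in if Good c then Complex.normSq (D a c V) else 0) := by
  classical
  have hcont : Continuous fun V : Matrix (Fin m) (Fin m) ℂ =>
      ∑ c : Fin m → Fin m × Fin n, (if Good c then Complex.normSq (D a c V) else 0) := by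
    refine continuous_finsetSum _ fun c _ => ?_
    by_cases hc : Good c
    · simp only [if_pos hc]
      exact Complex.continuous_normSq.comp (continuous_D a c)
    · simp only [if_neg hc]
      exact continuous_const
  obtain ⟨V0, hV0, hmin⟩ := (isCompact_U m).exists_isMinOn ⟨1, by simp⟩ hcont.continuousOn
  refine ⟨_, ?_, fun V hV => hmin hV⟩
  obtain ⟨c, hc, hD⟩ := exists_good a hm ha V0 hV0
  refine Finset.sum_pos' (fun c _ => ?_) ⟨c, Finset.mem_univ _, ?_⟩
  · split_ifs
    · exact Complex.normSq_nonneg _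
    · exact le_rfl
  · rw [if_pos hc]
    exact Complex.normSq_pos.2 hD

/-- coercivity -/
theorem coercive {n m : ℕ} (a : Fin n → Matrix (Fin (m + 1)) (Fin (m + 1)) ℂ) (ha : Ind a) :
    ∃ κ : ℝ, 0 < κ ∧ ∀ (V : Matrix (Fin (m + 1)) (Fin (m + 1)) ℂ) (t : Fin (m + 1) → ℝ),
      Vᴴ * V = 1 → (∀ i, 0 < t i) → Antitone t →
      κ * (t 0 * ∏ i, t i) ≤ F a V t * t (Fin.last m) := by
  classical
  obtain ⟨κ, hκ, h⟩ := exists_const a (by omega) ha
  refine ⟨((m + 1).factorial : ℝ)⁻¹ * κ, by positivity, ?_⟩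
  intro V t hV ht hanti
  have h1 : ∀ c : Fin (m + 1) → Fin (m + 1) × Fin n, Good c →
      t 0 * ∏ i, t i ≤ (∏ k, t (c k).1) * t (Fin.last m) := by
    intro c hc
    have h2 : (t 0 * ∏ i, t i) = (t 0 * ∏ k : Fin m, t k.castSucc) * t (Fin.last m) := by
      rw [Fin.prod_univ_castSucc]
      ring
    rw [h2, Fin.prod_univ_succ]
    refine mul_le_mul_of_nonneg_right ?_ (ht _).le
    refine mul_le_mul ?_ ?_ (Finset.prod_nonneg fun i _ => (ht _).le) (ht _).le
    · refine hanti ?_
      have h3 := hc 0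
      rw [Fin.val_zero] at h3
      rw [Fin.le_def]
      simp only [Fin.val_zero]
      omega
    · refine Finset.prod_le_prod (fun i _ => (ht _).le) fun i _ => hanti ?_
      have h3 := hc i.succ
      rw [Fin.val_succ] at h3
      rw [Fin.le_def, Fin.val_castSucc]
      omega
  have h4 := h V hV
  have h5 : 0 ≤ t 0 * ∏ i, t i := mul_nonneg (ht _).le (Finset.prod_nonneg fun i _ => (ht _).le)
  calc ((m + 1).factorial : ℝ)⁻¹ * κ * (t 0 * ∏ i, t i)
      ≤ ((m + 1).factorial : ℝ)⁻¹ * (∑ c : Fin (m + 1) → Fin (m + 1) × Fin n,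
          (if Good c then Complex.normSq (D a c V) else 0)) * (t 0 * ∏ i, t i) := by
        refine mul_le_mul_of_nonneg_right (mul_le_mul_of_nonneg_left ?_ (by positivity)) h5
        exact h4
    _ = ((m + 1).factorial : ℝ)⁻¹ * ∑ c : Fin (m + 1) → Fin (m + 1) × Fin n,
          (if Good c then Complex.normSq (D a c V) else 0) * (t 0 * ∏ i, t i) := by
        rw [mul_assoc, Finset.sum_mul]
    _ ≤ ((m + 1).factorial : ℝ)⁻¹ * ∑ c : Fin (m + 1) → Fin (m + 1) × Fin n,
          ((∏ k, t (c k).1) * Complex.normSq (D a c V)) * t (Fin.last m) := by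
        refine mul_le_mul_of_nonneg_left (Finset.sum_le_sum fun c _ => ?_) (by positivity)
        split_ifs with hc
        · calc Complex.normSq (D a c V) * (t 0 * ∏ i, t i)
              ≤ Complex.normSq (D a c V) * ((∏ k, t (c k).1) * t (Fin.last m)) :=
                mul_le_mul_of_nonneg_left (h1 c hc) (Complex.normSq_nonneg _)
            _ = _ := by ring
        · rw [zero_mul]
          exact mul_nonneg (mul_nonneg (Finset.prod_nonneg fun i _ => (ht _).le)
            (Complex.normSq_nonneg _)) (ht _).le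
    _ = F a V t * t (Fin.last m) := by
        rw [F, ← Finset.sum_mul, mul_assoc]

/-- spectral decomposition with sorted eigenvalues -/
theorem spectral {m : ℕ} (b : Matrix (Fin m) (Fin m) ℂ) (hb : b.PosDef) :
    ∃ (V : Matrix (Fin m) (Fin m) ℂ) (t : Fin m → ℝ), Vᴴ * V = 1 ∧ (∀ i, 0 < t i) ∧ Antitone t ∧
      b = B V t := by
  let U : Matrix (Fin m) (Fin m) ℂ := (hb.1.eigenvectorUnitary : Matrix (Fin m) (Fin m) ℂ)
  let σ : Equiv.Perm (Fin m) := Tuple.sort fun i => - hb.1.eigenvalues i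
  have hU : Uᴴ * U = 1 := Matrix.mem_unitaryGroup_iff'.1 hb.1.eigenvectorUnitary.2
  refine ⟨U.submatrix id σ, fun i => hb.1.eigenvalues (σ i), ?_, fun i => hb.eigenvalues_pos _, ?_, ?_⟩
  · have e : (U.submatrix id σ)ᴴ * U.submatrix id σ = (Uᴴ * U).submatrix σ σ := by
      ext i j
      rfl
    rw [e, hU, Matrix.submatrix_one_equiv]
  · intro i j hij
    have h := Tuple.monotone_sort (fun i => - hb.1.eigenvalues i) hij
    exact neg_le_neg_iff.1 h
  · have h1 : b = U * diagonal (fun i => ((hb.1.eigenvalues i : ℝ) : ℂ)) * Uᴴ := by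
      have h := hb.1.spectral_theorem
      rw [Unitary.conjStarAlgAut_apply] at h
      exact h
    rw [B]
    conv_lhs => rw [h1]
    ext i j
    rw [Matrix.mul_apply, Matrix.mul_apply, ← Equiv.sum_comp σ]
    refine Finset.sum_congr rfl fun k _ => ?_
    rw [Matrix.mul_diagonal, Matrix.mul_diagonal]
    rfl

theorem posDef_B {m : ℕ} (V : Matrix (Fin m) (Fin m) ℂ) (hV : Vᴴ * V = 1) (t : Fin m → ℝ)
    (ht : ∀ i, 0 < t i) : (B V t).PosDef := by
  have h1 : (diagonal (fun i => (t i : ℂ)) : Matrix (Fin m) (Fin m) ℂ).PosDef := by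
    rw [Matrix.posDef_diagonal_iff]
    intro i
    exact_mod_cast ht i
  have hu : IsUnit V := by
    rw [Matrix.isUnit_iff_isUnit_det]
    have h : Vᴴ.det * V.det = 1 := by rw [← Matrix.det_mul, hV, Matrix.det_one]
    exact IsUnit.of_mul_eq_one_right _ h
  have h2 : ((Vᴴ)ᴴ * diagonal (fun i => (t i : ℂ)) * Vᴴ).PosDef := by
    refine h1.conjTranspose_mul_mul_same ?_
    exact Matrix.mulVec_injective_of_isUnit hu.star
  rw [Matrix.conjTranspose_conjTranspose] at h2
  exact h2

theorem continuous_F {n m : ℕ} (a : Fin n → Matrix (Fin m) (Fin m) ℂ) :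
    Continuous fun p : Matrix (Fin m) (Fin m) ℂ × (Fin m → ℝ) => F a p.1 p.2 := by
  unfold F
  refine continuous_const.mul (continuous_finsetSum _ fun c _ => ?_)
  refine Continuous.mul ?_ (Complex.continuous_normSq.comp ((continuous_D a c).comp continuous_fst))
  fun_prop

theorem main {n m : ℕ} (a : Fin n → Matrix (Fin (m + 1)) (Fin (m + 1)) ℂ) (ha : Ind a) :
    ∃ b0 : Matrix (Fin (m + 1)) (Fin (m + 1)) ℂ, b0.PosDef ∧ (eta a b0).PosDef ∧
    ∀ b : Matrix (Fin (m + 1)) (Fin (m + 1)) ℂ, b.PosDef →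
      (eta a b0).det.re / b0.det.re ≤ (eta a b).det.re / b.det.re := by
  obtain ⟨c, hc, hco⟩ := coercive a ha
  have hFpos : ∀ (V : Matrix (Fin (m + 1)) (Fin (m + 1)) ℂ) (t : Fin (m + 1) → ℝ),
      Vᴴ * V = 1 → (∀ i, 0 < t i) → Antitone t → 0 < F a V t := by
    intro V t hV ht hanti
    have h1 := hco V t hV ht hanti
    have h2 : 0 < c * (t 0 * ∏ i, t i) := mul_pos hc (mul_pos (ht _) (Finset.prod_pos fun i _ => ht i))
    exact pos_of_mul_pos_left (lt_of_lt_of_le h2 h1) (ht _).le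
  have hF1 : 0 < F a 1 (fun _ => 1) :=
    hFpos 1 _ (by simp) (fun _ => one_pos) (fun _ _ _ => le_rfl)
  obtain ⟨κ, hκ⟩ : ∃ κ, κ = min 1 (c / F a 1 (fun _ => 1)) := ⟨_, rfl⟩
  have hκ0 : 0 < κ := by
    rw [hκ]
    exact lt_min one_pos (div_pos hc hF1)
  have hκ1 : κ ≤ 1 := by
    rw [hκ]
    exact min_le_left _ _
  have hκ2 : κ * F a 1 (fun _ => 1) ≤ c := by
    have := min_le_right 1 (c / F a 1 (fun _ => 1))
    rw [← hκ, le_div_iff₀ hF1] at this
    exact this
  let K : Set (Matrix (Fin (m + 1)) (Fin (m + 1)) ℂ × (Fin (m + 1) → ℝ)) :=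
    {V | Vᴴ * V = 1} ×ˢ (Set.pi Set.univ fun _ => Set.Icc κ 1)
  have hK : IsCompact K := (isCompact_U (m + 1)).prod (isCompact_univ_pi fun _ => isCompact_Icc)
  have hcontinuousOn : ContinuousOn (fun p : Matrix (Fin (m + 1)) (Fin (m + 1)) ℂ × (Fin (m + 1) → ℝ) =>
      F a p.1 p.2 / ∏ i, p.2 i) K := by
    refine ((continuous_F a).continuousOn).div (by fun_prop) ?_
    rintro ⟨V, t⟩ ⟨_, ht⟩
    exact (Finset.prod_pos fun i _ => lt_of_lt_of_le hκ0 (ht i (Set.mem_univ i)).1).ne'
  have h1K : ((1 : Matrix (Fin (m + 1)) (Fin (m + 1)) ℂ), (fun _ => (1 : ℝ))) ∈ K := by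
    refine ⟨?_, fun _ _ => ⟨hκ1, le_rfl⟩⟩
    show (1 : Matrix (Fin (m + 1)) (Fin (m + 1)) ℂ)ᴴ * 1 = 1
    simp
  obtain ⟨⟨V0, t0⟩, ⟨hV0, ht0⟩, hmin⟩ := hK.exists_isMinOn ⟨_, h1K⟩ hcontinuousOn
  have ht0' : ∀ i, 0 < t0 i := fun i => lt_of_lt_of_le hκ0 (ht0 i (Set.mem_univ i)).1
  have hb0 : (B V0 t0).PosDef := posDef_B V0 hV0 t0 ht0'
  refine ⟨B V0 t0, hb0, ?_, ?_⟩
  · obtain ⟨V, t, hV, ht, hanti, hbe⟩ := spectral _ hb0
    have hps : (eta a (B V0 t0)).PosSemidef := by
      rw [hbe, eta_eq a V t fun i => (ht i).le]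
      exact Matrix.posSemidef_conjTranspose_mul_self _
    rw [hps.posDef_iff_det_ne_zero]
    intro h0
    have h1 := det_eta a V t fun i => (ht i).le
    rw [← hbe, h0, Complex.zero_re] at h1
    exact (hFpos V t hV ht hanti).ne h1
  · intro b hb
    obtain ⟨V, t, hV, ht, hanti, rfl⟩ := spectral b hb
    rw [det_eta a V0 t0 fun i => (ht0' i).le, det_eta a V t fun i => (ht i).le, det_B V0 hV0,
      det_B V hV]
    obtain ⟨s, hs⟩ : ∃ s, s = (t 0)⁻¹ := ⟨_, rfl⟩
    have hs0 : 0 < s := by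
      rw [hs]
      exact inv_pos.2 (ht 0)
    have hpr : 0 < ∏ i, t i := Finset.prod_pos fun i _ => ht i
    have hsc : F a V t / ∏ i, t i = F a V (fun i => s * t i) / ∏ i, (s * t i) := by
      rw [F_scale, Finset.prod_mul_distrib, Finset.prod_const, Finset.card_univ, Fintype.card_fin,
        mul_div_mul_left _ _ (pow_pos hs0 _).ne']
    have hle1 : ∀ i, s * t i ≤ 1 := by
      intro i
      rw [hs, inv_mul_le_iff₀ (ht 0), mul_one]
      exact hanti (Fin.zero_le i)
    by_cases hlast : κ ≤ s * t (Fin.last m)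
    · rw [hsc]
      have hmem : (V, fun i => s * t i) ∈ K :=
        ⟨hV, fun i _ => ⟨le_trans hlast (mul_le_mul_of_nonneg_left (hanti (Fin.le_last i)) hs0.le), hle1 i⟩⟩
      exact hmin hmem
    · push Not at hlast
      have h1 := hmin h1K
      simp only [Set.mem_ofPred_eq, Finset.prod_const_one, div_one] at h1
      refine le_trans h1 ?_
      rw [le_div_iff₀ hpr]
      have h2 := hco V t hV ht hanti
      have h3 : t (Fin.last m) ≤ κ * t 0 := by
        have : s * t (Fin.last m) < κ := hlast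
        rw [hs, inv_mul_lt_iff₀ (ht 0)] at this
        linarith
      have h4 : κ * F a 1 (fun _ => 1) * (t 0 * ∏ i, t i) ≤ F a V t * (κ * t 0) :=
        calc κ * F a 1 (fun _ => 1) * (t 0 * ∏ i, t i) ≤ c * (t 0 * ∏ i, t i) :=
              mul_le_mul_of_nonneg_right hκ2 (mul_pos (ht 0) hpr).le
          _ ≤ F a V t * t (Fin.last m) := h2
          _ ≤ F a V t * (κ * t 0) := mul_le_mul_of_nonneg_left h3 (hFpos V t hV ht hanti).le
      have h5 : (κ * t 0) * (F a 1 (fun _ => 1) * ∏ i, t i) ≤ (κ * t 0) * F a V t := by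
        linarith
      exact le_of_mul_le_mul_left h5 (mul_pos hκ0 (ht 0))

end Mn

theorem min_t : S_MIN := by
  intro n m a hm ha
  obtain ⟨m, rfl⟩ : ∃ k, m = k + 1 := ⟨m - 1, by omega⟩
  exact Mn.main a ha

end Pool.Agent.W369.GB
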