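import Pool.Agent.W584.GB.Defs

set_option autoImplicit false

/-!
# Labels of all moves (project GB, S_lab)
-/

namespace Pool.Agent.W369.GB

open Pool.Agent.W584.GB Set

section

variable {V : Type} [Fintype V] [DecidableEq V] (G : SimpleGraph V) {A : Type} [Group A]

theorem cell_cases {c c' : Finset V} (hc : IsCell G c) (hc' : IsCell G c') (h : c ⊆ c') :
    c = c' ∨ ∃ v w, G.Adj v w ∧ c = {v} ∧ c' = {v, w} := by
  rcases hc with ⟨u, rfl⟩ | ⟨u, w, huw, rfl⟩
  · rcases hc' with ⟨u', rfl⟩ | ⟨u', w', huw', rfl⟩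
    · left
      have : u = u' := by simpa using h
      rw [this]
    · right
      have : u = u' ∨ u = w' := by simpa using h
      rcases this with rfl | rfl
      · exact ⟨u, w', huw', rfl, rfl⟩
      · exact ⟨u, u', huw'.symm, rfl, Finset.pair_comm _ _⟩
  · left
    apply Finset.eq_of_subset_of_card_le h
    rw [Finset.card_pair huw.ne]
    rcases hc' with ⟨u', rfl⟩ | ⟨u', w', huw', rfl⟩
    · simp
    · rw [Finset.card_pair huw'.ne]

theorem cell_ne (c : Finset V) (hc : IsCell G c) : c.Nonempty := by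
  rcases hc with ⟨u, rfl⟩ | ⟨u, w, -, rfl⟩
  · exact ⟨u, by simp⟩
  · exact ⟨u, by simp⟩

/-- Label of a possibly trivial move. -/
def st (s : Finset V → Finset V → Multiset (Finset V) → A) (c c' : Finset V)
    (M : Multiset (Finset V)) : A :=
  if c = c' then 1 else s c c' M

theorem st_self (s : Finset V → Finset V → Multiset (Finset V) → A) (c : Finset V)
    (M : Multiset (Finset V)) : st s c c M = 1 := if_pos rfl

theorem st_chain (s : Finset V → Finset V → Multiset (Finset V) → A) {c c' c'' : Finset V}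
    (hc : IsCell G c) (hc' : IsCell G c') (hc'' : IsCell G c'') (h : c ⊆ c') (h' : c' ⊆ c'')
    (M : Multiset (Finset V)) : st s c c'' M = st s c c' M * st s c' c'' M := by
  rcases cell_cases G hc hc' h with rfl | ⟨v, w, hvw, rfl, rfl⟩
  · rw [st_self, one_mul]
  · rcases cell_cases G hc' hc'' h' with rfl | ⟨v', w', -, h1, -⟩
    · rw [st_self, mul_one]
    · exfalso
      have h2 := congrArg Finset.card h1
      rw [Finset.card_pair hvw.ne, Finset.card_singleton] at h2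
      omega

/-- Two moves commute. -/
theorem st_comm {s : Finset V → Finset V → Multiset (Finset V) → A} (hs : Sq G s)
    {c c' d d' e : Finset V} (hc : IsCell G c) (hc' : IsCell G c') (hd : IsCell G d)
    (hd' : IsCell G d') (he : IsCell G e) (hcc : c ⊆ c') (hdd : d ⊆ d')
    (h1 : ∀ u, c = {u} → d ≠ {u}) (h2 : ∀ u, c = {u} → e ≠ {u}) (h3 : ∀ u, d = {u} → e ≠ {u}) :
    st s c c' (d ::ₘ {e}) * st s d d' (c' ::ₘ {e}) =
      st s d d' (c ::ₘ {e}) * st s c c' (d' ::ₘ {e}) := by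
  rcases cell_cases G hc hc' hcc with rfl | ⟨v, w, hvw, rfl, rfl⟩
  · rw [st_self, st_self, one_mul, mul_one]
  · rcases cell_cases G hd hd' hdd with rfl | ⟨v', w', hvw', rfl, rfl⟩
    · rw [st_self, st_self, one_mul, mul_one]
    · have e1 : ({v} : Finset V) ≠ {v, w} := by
        intro h
        have h2 := congrArg Finset.card h
        rw [Finset.card_pair hvw.ne, Finset.card_singleton] at h2
        omega
      have e2 : ({v'} : Finset V) ≠ {v', w'} := by
        intro h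
        have h2 := congrArg Finset.card h
        rw [Finset.card_pair hvw'.ne, Finset.card_singleton] at h2
        omega
      unfold st
      rw [if_neg e1, if_neg e2, if_neg e2, if_neg e1]
      apply hs v w v' w' e hvw hvw'
      refine ⟨by simp, ?_, ?_⟩
      · intro x hx
        simp only [Multiset.mem_cons, Multiset.mem_singleton] at hx
        rcases hx with rfl | rfl | rfl
        · exact hc
        · exact hd
        · exact he
      · intro u
        have k1 := h1 v rfl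
        have k2 := h2 v rfl
        have k3 := h3 v' rfl
        rw [Multiset.count_cons, Multiset.count_cons, Multiset.count_singleton]
        by_cases q1 : ({u} : Finset V) = {v}
        · have q2 : ¬ ({u} : Finset V) = {v'} := fun h => k1 (h.symm.trans q1)
          have q3 : ¬ ({u} : Finset V) = e := fun h => k2 (h.symm.trans q1)
          simp [q2, q3]
          split_ifs <;> omega
        · rw [if_neg q1]
          by_cases q2 : ({u} : Finset V) = {v'}
          · have q3 : ¬ ({u} : Finset V) = e := fun h => k3 (h.symm.trans q2)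
            rw [if_pos q2, if_neg q3]
          · rw [if_neg q2]
            split_ifs <;> omega

/-- The product of three moves in a given order. -/
def HH (s : Finset V → Finset V → Multiset (Finset V) → A) (i j k : Fin 3)
    (a a' : Fin 3 → Finset V) : A :=
  st s (a i) (a' i) (a j ::ₘ {a k}) * st s (a j) (a' j) (a' i ::ₘ {a k}) *
    st s (a k) (a' k) (a' i ::ₘ {a' j})

theorem pc (c d : Finset V) : (c ::ₘ {d} : Multiset (Finset V)) = d ::ₘ {c} :=
  Multiset.pair_comm c d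

/-- No vertex is used twice in mixed triples. -/
theorem mixed {a a' : Fin 3 → Finset V} (hok : Ok G a a') {i j : Fin 3} (hij : i ≠ j)
    {b b' : Finset V} (hb : IsCell G b) (hb' : IsCell G b') (h1 : a i ⊆ b) (h2 : a j ⊆ b')
    (u : V) (hu : b = {u}) : b' ≠ {u} := by
  intro hu'
  subst hu hu'
  have h3 : ∀ k, a k ⊆ {u} → a k = {u} := by
    intro k hk
    rcases Finset.subset_singleton_iff.1 hk with h | h
    · have := cell_ne G (a k) (hok.1 k)
      rw [h] at this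
      exact absurd this (by simp)
    · exact h
  exact hok.2.2.2 i j u hij (h3 i h1) (h3 j h2)

theorem HH_swap1 {s : Finset V → Finset V → Multiset (Finset V) → A} (hs : Sq G s)
    {a a' : Fin 3 → Finset V} (h : Ok G a a') {i j k : Fin 3} (hij : i ≠ j) (hik : i ≠ k)
    (hjk : j ≠ k) : HH s i j k a a' = HH s j i k a a' := by
  unfold HH
  rw [st_comm G hs (h.1 i) (h.2.1 i) (h.1 j) (h.2.1 j) (h.1 k) (h.2.2.1 i) (h.2.2.1 j)
    (h.2.2.2 i j · hij) (h.2.2.2 i k · hik) (h.2.2.2 j k · hjk), pc (a' i) (a' j)]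

theorem HH_swap2 {s : Finset V → Finset V → Multiset (Finset V) → A} (hs : Sq G s)
    {a a' : Fin 3 → Finset V} (h : Ok G a a') {i j k : Fin 3} (hij : i ≠ j) (hik : i ≠ k)
    (hjk : j ≠ k) : HH s i j k a a' = HH s i k j a a' := by
  unfold HH
  rw [mul_assoc, mul_assoc, pc (a' i) (a k), pc (a' i) (a' j), pc (a' i) (a j), pc (a' i) (a' k),
    pc (a j) (a k)]
  rw [st_comm G hs (h.1 j) (h.2.1 j) (h.1 k) (h.2.1 k) (h.2.1 i) (h.2.2.1 j) (h.2.2.1 k)
    (h.2.2.2 j k · hjk)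
    (mixed G h hij.symm (h.1 j) (h.2.1 i) Finset.Subset.rfl (h.2.2.1 i))
    (mixed G h hik.symm (h.1 k) (h.2.1 i) Finset.Subset.rfl (h.2.2.1 i))]

theorem perm3 : ∀ σ : Equiv.Perm (Fin 3),
    (σ 0 = 0 ∧ σ 1 = 1 ∧ σ 2 = 2) ∨ (σ 0 = 0 ∧ σ 1 = 2 ∧ σ 2 = 1) ∨
    (σ 0 = 1 ∧ σ 1 = 0 ∧ σ 2 = 2) ∨ (σ 0 = 1 ∧ σ 1 = 2 ∧ σ 2 = 0) ∨
    (σ 0 = 2 ∧ σ 1 = 0 ∧ σ 2 = 1) ∨ (σ 0 = 2 ∧ σ 1 = 1 ∧ σ 2 = 0) := by
  decide

end

/-- Labels of all moves. -/
theorem lab : S_lab := by
  intro V _ _ G A _ s hs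
  refine ⟨HH s 0 1 2, ?_, ?_, ?_⟩
  · intro a a' σ h
    have n01 : (0 : Fin 3) ≠ 1 := by decide
    have n02 : (0 : Fin 3) ≠ 2 := by decide
    have n12 : (1 : Fin 3) ≠ 2 := by decide
    have e1 : HH s 0 1 2 (a ∘ σ) (a' ∘ σ) = HH s (σ 0) (σ 1) (σ 2) a a' := rfl
    rw [e1]
    rcases perm3 σ with ⟨h0, h1, h2⟩ | ⟨h0, h1, h2⟩ | ⟨h0, h1, h2⟩ | ⟨h0, h1, h2⟩ |
      ⟨h0, h1, h2⟩ | ⟨h0, h1, h2⟩ <;> rw [h0, h1, h2]
    · exact HH_swap2 G hs h n02 n01 n12.symm
    · exact HH_swap1 G hs h n01.symm n12 n02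
    · rw [HH_swap2 G hs h n12 n01.symm n02.symm]
      exact HH_swap1 G hs h n01.symm n12 n02
    · rw [HH_swap1 G hs h n02.symm n12.symm n01]
      exact HH_swap2 G hs h n02 n01 n12.symm
    · rw [HH_swap1 G hs h n12.symm n02.symm n01.symm, HH_swap2 G hs h n12 n01.symm n02.symm]
      exact HH_swap1 G hs h n01.symm n12 n02
  · intro a a' a'' h h'
    have n01 : (0 : Fin 3) ≠ 1 := by decide
    have n02 : (0 : Fin 3) ≠ 2 := by decide
    have n12 : (1 : Fin 3) ≠ 2 := by decide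
    unfold HH
    have s0 := h.2.2.1 0
    have s1 := h.2.2.1 1
    have s2 := h.2.2.1 2
    have t0 := h'.2.2.1 0
    have t1 := h'.2.2.1 1
    have t2 := h'.2.2.1 2
    -- move Y0 past X2
    have c1 := st_comm G hs (h.1 2) (h.2.1 2) (h'.1 0) (h'.2.1 0) (h.2.1 1) s2 t0
      (mixed G h n02.symm (h.1 2) (h.2.1 0) Finset.Subset.rfl s0)
      (mixed G h n12.symm (h.1 2) (h.2.1 1) Finset.Subset.rfl s1)
      (mixed G h n01 (h.2.1 0) (h.2.1 1) s0 s1)
    have c2 := st_comm G hs (h.1 1) (h.2.1 1) (h'.1 0) (h'.2.1 0) (h.1 2) s1 t0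
      (mixed G h n01.symm (h.1 1) (h.2.1 0) Finset.Subset.rfl s0)
      (mixed G h n12 (h.1 1) (h.1 2) Finset.Subset.rfl Finset.Subset.rfl)
      (mixed G h n02 (h.2.1 0) (h.1 2) s0 Finset.Subset.rfl)
    have c3 := st_comm G hs (h.1 2) (h.2.1 2) (h'.1 1) (h'.2.1 1) (h'.2.1 0) s2 t1
      (mixed G h n12.symm (h.1 2) (h.2.1 1) Finset.Subset.rfl s1)
      (mixed G h n02.symm (h.1 2) (h'.2.1 0) Finset.Subset.rfl (s0.trans t0))
      (mixed G h n01.symm (h.2.1 1) (h'.2.1 0) s1 (s0.trans t0))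
    rw [st_chain G s (h.1 0) (h'.1 0) (h'.2.1 0) s0 t0, st_chain G s (h.1 1) (h'.1 1) (h'.2.1 1)
      s1 t1, st_chain G s (h.1 2) (h'.1 2) (h'.2.1 2) s2 t2]
    have d1 : st s (a 2) (a' 2) (a' 0 ::ₘ {a' 1}) * st s (a' 0) (a'' 0) (a' 1 ::ₘ {a' 2}) =
        st s (a' 0) (a'' 0) (a' 1 ::ₘ {a 2}) * st s (a 2) (a' 2) (a'' 0 ::ₘ {a' 1}) := by
      rw [pc (a' 1) (a' 2), pc (a' 1) (a 2)]
      exact c1
    have d2 : st s (a 1) (a' 1) (a' 0 ::ₘ {a 2}) * st s (a' 0) (a'' 0) (a' 1 ::ₘ {a 2}) =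
        st s (a' 0) (a'' 0) (a 1 ::ₘ {a 2}) * st s (a 1) (a' 1) (a'' 0 ::ₘ {a 2}) := c2
    have d3 : st s (a 2) (a' 2) (a'' 0 ::ₘ {a' 1}) * st s (a' 1) (a'' 1) (a'' 0 ::ₘ {a' 2}) =
        st s (a' 1) (a'' 1) (a'' 0 ::ₘ {a 2}) * st s (a 2) (a' 2) (a'' 0 ::ₘ {a'' 1}) := by
      rw [pc (a'' 0) (a' 1), pc (a'' 0) (a' 2), pc (a'' 0) (a 2), pc (a'' 0) (a'' 1)]
      exact c3
    calc _ = st s (a 0) (a' 0) (a 1 ::ₘ {a 2}) * st s (a 1) (a' 1) (a' 0 ::ₘ {a 2}) *
          (st s (a 2) (a' 2) (a' 0 ::ₘ {a' 1}) * st s (a' 0) (a'' 0) (a' 1 ::ₘ {a' 2})) *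
          st s (a' 1) (a'' 1) (a'' 0 ::ₘ {a' 2}) * st s (a' 2) (a'' 2) (a'' 0 ::ₘ {a'' 1}) := by
          simp only [mul_assoc]
      _ = st s (a 0) (a' 0) (a 1 ::ₘ {a 2}) * (st s (a 1) (a' 1) (a' 0 ::ₘ {a 2}) *
          st s (a' 0) (a'' 0) (a' 1 ::ₘ {a 2})) * (st s (a 2) (a' 2) (a'' 0 ::ₘ {a' 1}) *
          st s (a' 1) (a'' 1) (a'' 0 ::ₘ {a' 2})) * st s (a' 2) (a'' 2) (a'' 0 ::ₘ {a'' 1}) := by
          rw [d1]; simp only [mul_assoc]
      _ = _ := by
          rw [d2, d3]; simp only [mul_assoc]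
  · intro a v w hvw h0 h
    unfold HH
    have e1 : ({v} : Finset V) ≠ {v, w} := by
      intro h
      have h2 := congrArg Finset.card h
      rw [Finset.card_pair hvw.ne, Finset.card_singleton] at h2
      omega
    have f1 : Function.update a 0 {v, w} 1 = a 1 := by simp
    have f2 : Function.update a 0 {v, w} 2 = a 2 := by simp
    have f0 : Function.update a 0 {v, w} 0 = {v, w} := by simp
    rw [f1, f2, f0, st_self, st_self, mul_one, mul_one, h0]
    unfold st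
    rw [if_neg e1]

end Pool.Agent.W369.GB
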